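import Pool.Agent.Q300.ML.Defs
import Pool.Agent.Y793.Ml

/-!
# Malle's conjecture over large number fields for `C₂ ≀ ((A ≀ A_n) ≀ A_r)`, `A` any perfect group

`A` is any finite perfect group, `n` is large and `r = 8 k + 4` is large in terms of `n`; the group
`H = (A ≀ A_n) ≀ A_r` acts on itself by multiplication, and `G = C₂ ≀ H` acts on `H × {0, 1}`. The
formula of the question holds for `G` over every number field `K` (`K₀ = ℚ`), with `ind(G) = 1` and
`β_K(G) = 1`.
-/

set_option autoImplicit false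

namespace Pool.Agent.Results.MP_b39724_nt.AlternatingTowers

/-- The alternating wreath product `A ≀ A_n`: the group of the elements of `A^n ⋊ S_n` over even
permutations. -/
def AltWreath (A : Type) [Group A] (n : ℕ) : Type :=
  (Equiv.Perm.sign.comp (SemidirectProduct.rightHom :
    (Fin n → A) ⋊[mulAutArrow] Equiv.Perm (Fin n) →* Equiv.Perm (Fin n))).ker

/-- Its group structure. -/
instance instGroup (A : Type) [Group A] (n : ℕ) : Group (AltWreath A n) :=
  inferInstanceAs (Group (Equiv.Perm.sign.comp (SemidirectProduct.rightHom :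
    (Fin n → A) ⋊[mulAutArrow] Equiv.Perm (Fin n) →* Equiv.Perm (Fin n))).ker)

end Pool.Agent.Results.MP_b39724_nt.AlternatingTowers

open Pool.Agent.Q300.ML Pool.Agent.Results.MP_b39724_nt.AlternatingTowers in
/-- For every finite perfect group `A`, all large `n` and all `k` large in terms of `n`, the formula
`n_K(G, B) ~ C B ^ (1 / ind(G)) (log B) ^ (β_K(G) - 1)` holds over all number fields `K` for
`G = C₂ ≀ H`, `H = (A ≀ A_n) ≀ A_r`, `r = 8 k + 4`; here `ind(G) = 1` and `β_K(G) = 1`. -/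
theorem Pool.Agent.Results.MP_b39724_nt.AlternatingTowers.result :
    ∀ (A : Type) [Group A] [Finite A], commutator A = ⊤ →
    ∃ n₀ : ℕ, ∀ n ≥ n₀, ∃ k₀ : ℕ, ∀ k ≥ k₀,
      MalleAbove ℚ (AltWreath (AltWreath A n) (8 * k + 4)) ∧
      ∀ (d : ℕ) (G : Subgroup (Equiv.Perm (Fin d))),
        IsC2Wreath (AltWreath (AltWreath A n) (8 * k + 4)) G → indG G = 1 ∧
          ∀ (K : Type) [Field K], beta K G = 1 := by
  intro A _ _ hA
  obtain ⟨n₀, h⟩ := Pool.Agent.Y793.tower_real A hA
  refine ⟨n₀, fun n hn => ?_⟩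
  obtain ⟨k₀, h2⟩ := h n hn
  refine ⟨k₀, fun k hk => ?_⟩
  obtain ⟨hf, hc, ⟨U, hU, hi⟩, hr⟩ := h2 k hk
  refine ⟨⟨@exists_group (AltWreath (AltWreath A n) (8 * k + 4)) _ hf, fun d G hG K _ _ _ => ?_⟩,
    fun d G hG => ⟨@indG_eq (AltWreath (AltWreath A n) (8 * k + 4)) _ hf d G hG, fun K _ =>
      @beta_eq K _ (AltWreath (AltWreath A n) (8 * k + 4)) _ hf hc d G hG⟩⟩
  exact @malleOver_of K _ _ (AltWreath (AltWreath A n) (8 * k + 4)) _ hf hc U hU hi (hr K) d G hG
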