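import Pool.Agent.Q300.ML.Defs

/-!
# Malle's conjecture over all large number fields for `C₂ ≀ H`, `H` a tower of wreath products

`H` is a finite group acting on itself by multiplication, and `G = C₂ ≀ H` acts on `H × {0, 1}`.

First part: `H = A ≀ S_m`, `A` any finite group and `m ≥ ((3 |A| + 2)!) ^ 3`. The formula of the question
holds for `G` over every number field `K` (`K₀ = ℚ`).

Second part: let `Cls K₀` be the smallest class of homomorphisms of groups `p : W' → W` which contains
the projections of semidirect products `N ⋊ W → W` with `N` finite abelian, or `N = A ^ k`, where `A` is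
the group of a Galois extension of `K₀(t)` in which `K₀` is algebraically closed and `W` acts through
`A ≀ S_k`, or `N = (B ≀ S_n) ^ k`, `B` any finite group, `n ≥ ((3 |B| + 2)!) ^ 3` and `W` acts through
`Aut(B) ≀ S_k`, and also all (split or nonsplit) epimorphisms with kernel a product of groups
`B_i ≀ S_{n_i}`, `B_i` nontrivial with trivial centre and `Inn B_i` complemented in `Aut B_i`, and which
is closed under compositions and quotients. If `H → 1` is in `Cls K₀` and `H` has a subgroup of
index `u`, with trivial normal core, with `8 u (u + 1) ≤ |H|`, then the formula holds for `G` over every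
number field `K` which contains `K₀`.

In all cases `ind(G) = 1` and `β_K(G) = 1`, that is, `n_K(G, B) ~ C B`.
-/

set_option autoImplicit false

open Pool.Agent.Q300.ML
open Pool.Agent.TH444.TW (Cls)
open Pool.Agent.H391R2 (Wr)

/-- The formula `n_K(G, B) ~ C B ^ (1 / ind(G)) (log B) ^ (β_K(G) - 1)` holds for `G = C₂ ≀ (A ≀ S_m)`,
`m ≥ ((3 |A| + 2)!) ^ 3`, over every number field (first part), and, more generally, if `H → 1` is in
`Cls K₀` and `H` has a subgroup of index `u` with trivial normal core and `8 u (u + 1) ≤ |H|`, then for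
`G = C₂ ≀ H` over every number field which contains `K₀` (second part). Third part: `ind(G) = 1` and
`β_K(G) = 1` for every `G = C₂ ≀ H` with `H` nontrivial and every field `K`. -/
theorem Pool.Agent.Results.MP_b39724_nt.WreathTowers.result :
    (∀ (A : Type) [Group A] [Finite A] (m : ℕ), ((3 * Nat.card A + 2).factorial) ^ 3 ≤ m →
      MalleAbove ℚ (Wr A m)) ∧
    (∀ (K₀ H : Type) [Field K₀] [NumberField K₀] [Group H] [Finite H], Cls K₀ (1 : H →* Unit) →
      ∀ U : Subgroup H, U.normalCore = ⊥ → 8 * U.index * (U.index + 1) ≤ Nat.card H →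
      MalleAbove K₀ H) ∧
    (∀ (H : Type) [Group H] [Finite H] [Nontrivial H] (d : ℕ) (G : Subgroup (Equiv.Perm (Fin d))),
      IsC2Wreath H G → indG G = 1 ∧ ∀ (K : Type) [Field K], beta K G = 1) := by
  refine ⟨?_, ?_, ?_⟩
  · intro A _ _ m hm
    refine ⟨exists_group (Wr A m), fun d G hG K _ _ _ => ?_⟩
    obtain ⟨h2, ⟨U, hU, hc⟩, hne⟩ := Pool.Agent.TH444.ML.wr_data K A m hm
    exact malleOver_of K (Wr A m) h2 U hU hc hne d G hG
  · intro K₀ H _ _ _ _ h U hU hc
    exact malleAbove_of_cls K₀ H h U hU hc
  · intro H _ _ _ d G hG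
    exact ⟨indG_eq hG, fun K _ => beta_eq K Finite.one_lt_card hG⟩
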